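import Pool.Agent.H38.SC.Compl

/-!
# A polynomial-time certifier for simple connectivity of random 2-complexes

For every constant `c > 1/√γ`, `γ = 256/27`, there is a polynomial-time certifier for simple
connectivity whose answer on the Linial-Meshulam complex `Y₂(n, c/√n)` is `true` with probability
`1 - o(1)`.

The algorithm. Fix a constant `K = K(c)` and a vertex `v`. A pair `b, c` of vertices is certified
if the triangle `v, b, c` is a face, or bounds a triangulated disk of the complex with `K` inner
vertices; and then whenever `b, x` and `x, c` are certified and `b, x, c` is a face. If all pairs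
get certified and the 1-skeleton is complete, the complex is simply connected.

The analysis. The expected number of disks with `K` inner vertices on `v, a, x`, `x` ranging over
a third of the vertices, is a large constant times `√n`; the disks used have no inner edge at `x`,
which makes all clusters in the second moment cheap. After this step every typical vertex has a
large constant times `√n` certified pairs, and a constant number of rounds of sprinkling amplifies
this up to all pairs.
-/

set_option autoImplicit false

namespace Pool.Agent.Results.MP_427cf7_lc.Certifier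

open Filter Topology Pool.Agent.H38.SC Pool.Agent.H38.SC.EF

theorem pairBits_eq (u w : List Bool) : pairBits u w = Pool.Agent.H80.Poly.pr u w := rfl

theorem listBits_eq {α : Type} [Pool.Agent.H80.Poly.BEnc α] (f : α → List Bool)
    (hf : ∀ a, f a = Pool.Agent.H80.Poly.BEnc.enc a) (l : List α) :
    listBits (l.map f) = Pool.Agent.H80.Poly.BEnc.enc l := by
  induction l with
  | nil => rfl
  | cons a l ih =>
    rw [List.map_cons, Pool.Agent.H80.Poly.enc_cons, ← pairBits_eq, ← hf, ← ih]
    rfl

theorem encodeInp_eq : encodeInp = (Pool.Agent.H80.Poly.BEnc.enc : Inp → List Bool) := by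
  funext x
  obtain ⟨vs, es, ts⟩ := x
  have h1 := listBits_eq Computability.encodeNat (fun a => rfl) vs
  have h2 := listBits_eq (fun e : ℕ × ℕ =>
    pairBits (Computability.encodeNat e.1) (Computability.encodeNat e.2)) (fun a => rfl) es
  have h3 := listBits_eq (fun t : ℕ × ℕ × ℕ =>
    pairBits (Computability.encodeNat t.1)
      (pairBits (Computability.encodeNat t.2.1) (Computability.encodeNat t.2.2)))
    (fun a => rfl) ts
  rw [Pool.Agent.H80.Poly.enc_prod, Pool.Agent.H80.Poly.enc_prod, ← h1, ← h2, ← h3]
  rfl

theorem certifier (K : ℕ) : IsPolyTimeCertifier (alg (pats K) K) := by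
  constructor
  · rw [encodeInp_eq]
    exact (poly_alg (pats K) K).tm2
  · intro x hx h
    exact alg_sound (pats_ok K) hx h

theorem acceptProb_eq (A : Inp → Bool) (n : ℕ) (p : ℝ) : acceptProb A n p =
    Ex (Finset.powersetCard 3 (Finset.Icc 1 n)) p
      (ind (fun F => ∀ x : Inp, IsComplex x → simplices x = LM n F → A x = true)) := by
  unfold acceptProb Ex bw ind
  rw [Finset.card_powersetCard, Nat.card_Icc, Nat.add_sub_cancel]

/-- **Theorem.** For every `c > 1/√γ`, `γ = 256/27`, there is a polynomial-time certifier for
simple connectivity which answers `true` on `Y₂(n, c/√n)` with probability tending to `1`. -/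
theorem result (c : ℝ) (hc : 1 / √(256 / 27) < c) :
    ∃ A : Inp → Bool, IsPolyTimeCertifier A ∧
      Tendsto (fun n : ℕ => acceptProb A n (c / √n)) atTop (𝓝 1) := by
  have hc0 : 0 < c := lt_of_le_of_lt (by positivity) hc
  have hc2 : 27 / 256 < c ^ 2 := by
    have h1 : (1 / √(256 / 27)) ^ 2 < c ^ 2 := by
      apply pow_lt_pow_left₀ hc (by positivity) (by norm_num)
    rw [div_pow, one_pow, Real.sq_sqrt (by norm_num)] at h1
    have h2 : (1 : ℝ) / (256 / 27) = 27 / 256 := by norm_num
    rwa [h2] at h1
  obtain ⟨K, hK⟩ := main_prob hc0 hc2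
  refine ⟨alg (pats K) K, certifier K, ?_⟩
  rw [Metric.tendsto_atTop]
  intro ε hε
  obtain ⟨n0, hn0⟩ := hK (ε / 2) (by positivity)
  have e1 : ∀ᶠ n : ℕ in atTop, c ≤ √(n : ℝ) :=
    (Real.tendsto_sqrt_atTop.comp tendsto_natCast_atTop_atTop).eventually_ge_atTop _
  obtain ⟨n1, hn1⟩ := Filter.eventually_atTop.1 e1
  refine ⟨max (max n0 n1) 1, fun n hn => ?_⟩
  have h0 : n0 ≤ n := le_trans (le_trans (le_max_left _ _) (le_max_left _ _)) hn
  have h1 : n1 ≤ n := le_trans (le_trans (le_max_right _ _) (le_max_left _ _)) hn
  have h2 : 1 ≤ n := le_trans (le_max_right _ _) hn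
  have hsq : 0 < √(n : ℝ) := Real.sqrt_pos.2 (by exact_mod_cast h2)
  have hp0 : 0 ≤ c / √(n : ℝ) := by positivity
  have hp1 : c / √(n : ℝ) ≤ 1 := (div_le_one hsq).2 (hn1 n h1)
  have hlow := hn0 n h0
  rw [acceptProb_eq]
  have hmono := Ex_mono (Ω := Finset.powersetCard 3 (Finset.Icc 1 n)) hp0 hp1
    (F := ind (fun Z => Goal (Finset.Icc 1 n) 1 (Sd' K 1 Z) Z))
    (G := ind (fun F => ∀ x : Inp, IsComplex x → simplices x = LM n F →
      alg (pats K) K x = true)) (fun F hF => by
      apply ind_mono (A := fun Z => Goal (Finset.Icc 1 n) 1 (Sd' K 1 Z) Z)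
        (B := fun F => ∀ x : Inp, IsComplex x → simplices x = LM n F →
          alg (pats K) K x = true)
      intro hG x hx hS
      exact alg_complete h2 hF hx hS hG)
  have hle : Ex (Finset.powersetCard 3 (Finset.Icc 1 n)) (c / √(n : ℝ))
      (ind (fun F => ∀ x : Inp, IsComplex x → simplices x = LM n F →
        alg (pats K) K x = true)) ≤ 1 :=
    (bern (Finset.powersetCard 3 (Finset.Icc 1 n)) (c / √(n : ℝ)) hp0 hp1).P_le_one _
  rw [Real.dist_eq, abs_lt]
  constructor <;> linarith

end Pool.Agent.Results.MP_427cf7_lc.Certifier
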